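import Pool.Agent.H36.S6.FrP
import Pool.Agent.H10.S6U.Uz2

/-!
# The exact points see the frame and the velocity of the natural contexts

`Str` (helper10) for the frames `UFrP`, hence for `UFr`: the positions and the relation of the
velocities in the natural context are functions of the exact point and of the context, up to a
constant number of units of the digit `X`.
-/

set_option autoImplicit false

namespace Pool.S6U

open Finset Real
open Pool.Agent.H49.Ent Pool.Agent.H32.Dense Pool.STK Pool.KA Pool.KSAT Pool.K2S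

variable {m J : ℕ}

/-- The position rounded to the digits of the exact point. -/
noncomputable def xhp (F : Fam m J) (ω : F.Ω) (i : Fin m) : ℝ := (F.X J ω i : ℝ) / 2 ^ J

theorem xhp_le (F : Fam m J) (ω : F.Ω) (i : Fin m) : |F.x ω i - xhp F ω i| ≤ 1 / 2 ^ J := by
  have hp : (0 : ℝ) < 2 ^ J := by positivity
  have h1 := Int.floor_le ((2 : ℝ) ^ J * F.x ω i)
  have h2 := (Int.lt_floor_add_one ((2 : ℝ) ^ J * F.x ω i)).le
  have e : F.x ω i - xhp F ω i = (2 ^ J * F.x ω i - ⌊(2 : ℝ) ^ J * F.x ω i⌋) / 2 ^ J := by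
    change F.x ω i - (⌊(2 : ℝ) ^ J * F.x ω i⌋ : ℝ) / 2 ^ J = _
    field_simp
  rw [e, abs_of_nonneg (div_nonneg (by linarith) hp.le)]
  exact div_le_div_of_nonneg_right (by linarith) hp.le

/-- The position at the time, from the exact point and the context. -/
noncomputable def upt (F : Fam m J) (w : ℕ) (c : Fin m → ℕ) (M : F.Ω → Fin m → Fin m → ℝ)
    (ω : F.Ω) (i : Fin m) : ℝ :=
  2 ^ (c i + w) * mco (M ω) (xhp F ω) i - F.mkn w c M ω i

theorem upt_det {F : Fam m J} {w : ℕ} {c : Fin m → ℕ} {M : F.Ω → Fin m → Fin m → ℝ}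
    {ω ω' : F.Ω} (hP : Fam.pt F ω = Fam.pt F ω') (hb : F.blb w c M ω = F.blb w c M ω') :
    upt F w c M ω = upt F w c M ω' := by
  obtain ⟨e1, e2, e3, e4, e5⟩ := Box.mlb_ext (F := F) (g := w) (M := M) hb
  have h3 : F.T ω = F.T ω' := (Prod.ext_iff.mp (Prod.ext_iff.mp hP).2).1
  have h4 : F.X J ω = F.X J ω' := (Prod.ext_iff.mp hP).1
  funext i
  unfold upt xhp
  rw [Box.mkn_det hb h3, h4, e2]

/-- The positions are known, if the row of the frame is at most `K`: error `E` units. -/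
theorem upt_le {F : Fam m J} {w : ℕ} (hw : w ≤ J) {c : Fin m → ℕ}
    {M : F.Ω → Fin m → Fin m → ℝ} {X : ℕ} {ω : F.Ω} {i : Fin m} {K : ℝ}
    {E : ℝ} (hc : K * 2 ^ (c i + w + X) ≤ E * 2 ^ J) (hK : ∑ j, |M ω i j| ≤ K) :
    |F.mx w c M ω i - upt F w c M ω i| * 2 ^ X ≤ E := by
  have h1 := Box.pos_eq F hw c M ω i
  have hJ : (0 : ℝ) < 2 ^ J := by positivity
  have h2 : |mco (M ω) (F.x ω) i - mco (M ω) (xhp F ω) i| ≤ K / 2 ^ J := by
    unfold mco
    rw [← Finset.sum_sub_distrib]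
    refine (Finset.abs_sum_le_sum_abs _ _).trans ?_
    have h3 : ∀ j ∈ (Finset.univ : Finset (Fin m)), |M ω i j * F.x ω j - M ω i j * xhp F ω j| ≤
        |M ω i j| * (1 / 2 ^ J) := by
      intro j _
      rw [← mul_sub, abs_mul]
      exact mul_le_mul_of_nonneg_left (xhp_le F ω j) (abs_nonneg _)
    refine (Finset.sum_le_sum h3).trans ?_
    rw [← Finset.sum_mul, mul_one_div]
    exact div_le_div_of_nonneg_right hK hJ.le
  have e : F.mx w c M ω i - upt F w c M ω i =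
      2 ^ (c i + w) * (mco (M ω) (F.x ω) i - mco (M ω) (xhp F ω) i) := by
    unfold upt
    rw [mul_sub, h1]
    ring
  rw [e, abs_mul, abs_of_pos (by positivity : (0 : ℝ) < 2 ^ (c i + w))]
  calc (2 : ℝ) ^ (c i + w) * |mco (M ω) (F.x ω) i - mco (M ω) (xhp F ω) i| * 2 ^ X
      = 2 ^ (c i + w + X) * |mco (M ω) (F.x ω) i - mco (M ω) (xhp F ω) i| := by
        rw [pow_add _ (c i + w) X]
        ring
    _ ≤ 2 ^ (c i + w + X) * (K / 2 ^ J) := mul_le_mul_of_nonneg_left h2 (by positivity)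
    _ = K * 2 ^ (c i + w + X) / 2 ^ J := by ring
    _ ≤ E := by rwa [div_le_iff₀ hJ]

/-- The velocities are related: the direction `d_u = al d_e + nu` at the exact point, the frame
with the slope `a`, the own slope `sl`. -/
theorem vel_le {F : Fam 3 J} {σ : Fin 3 → Fin 3} {v κ q X D Hu : ℕ} {a s t al : F.Ω → ℝ}
    {ω : F.Ω} {al0 nu B E : ℝ} (hal : al ω = al0) (hD : v + X ≤ D)
    (hE : B * 2 ^ (v + q + X) ≤ E * 2 ^ Hu)
    (on1 : |F.d ω (σ 1) - al0 * F.d ω (σ 0) - nu| ≤ B / 2 ^ Hu) :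
    |F.md (cv v κ q) (frm σ a s t) ω 1 - sl v D a al ω * F.md (cv v κ q) (frm σ a s t) ω 0 -
      (2 ^ (v + q) * nu - F.mvl (cv v κ q) (frm σ a s t) ω 1 +
        2 ^ v * (al0 - a ω) * F.mvl (cv v κ q) (frm σ a s t) ω 0)| * 2 ^ X ≤ E + 1 := by
  obtain ⟨o1, o2⟩ := Box.md_mem F (cv v κ q) (frm σ a s t) ω 0
  have m0 := Box.mvl_add F (cv v κ q) (frm σ a s t) ω 0
  have m1 := Box.mvl_add F (cv v κ q) (frm σ a s t) ω 1
  have c0 : mco (frm σ a s t ω) (F.d ω) 0 = F.d ω (σ 0) := Box.mco_tfr0 _ _ _ _ _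
  have c1 : mco (frm σ a s t ω) (F.d ω) 1 = F.d ω (σ 1) - a ω * F.d ω (σ 0) :=
    Box.mco_tfr1 _ _ _ _ _
  have v0 : cv v κ q 0 = q := rfl
  have v1 : cv v κ q 1 = v + q := rfl
  rw [c0, v0] at m0
  rw [c1, v1] at m1
  have hX : (0 : ℝ) < 2 ^ X := by positivity
  have h1 : |(al0 - (Uni.dg D al ω : ℝ) / 2 ^ D)| ≤ 1 / 2 ^ D := by
    have := dg_near D al ω
    rwa [hal, abs_sub_comm] at this
  have h2 : |2 ^ (v + q) * (F.d ω (σ 1) - al0 * F.d ω (σ 0) - nu)| ≤ E / 2 ^ X := by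
    rw [abs_mul, abs_of_pos (by positivity : (0 : ℝ) < 2 ^ (v + q)), le_div_iff₀ hX]
    calc (2 : ℝ) ^ (v + q) * |F.d ω (σ 1) - al0 * F.d ω (σ 0) - nu| * 2 ^ X ≤
          2 ^ (v + q) * (B / 2 ^ Hu) * 2 ^ X :=
          mul_le_mul_of_nonneg_right (mul_le_mul_of_nonneg_left on1 (by positivity)) hX.le
      _ = B * 2 ^ (v + q + X) / 2 ^ Hu := by
          rw [pow_add _ (v + q) X]
          ring
      _ ≤ E := by rwa [div_le_iff₀ (by positivity)]
  have h3 : |2 ^ v * (al0 - (Uni.dg D al ω : ℝ) / 2 ^ D) *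
      F.md (cv v κ q) (frm σ a s t) ω 0| ≤ 1 / 2 ^ X := by
    rw [abs_mul, abs_mul, abs_of_pos (by positivity : (0 : ℝ) < 2 ^ v), abs_of_nonneg o1]
    calc (2 : ℝ) ^ v * |al0 - (Uni.dg D al ω : ℝ) / 2 ^ D| *
          F.md (cv v κ q) (frm σ a s t) ω 0 ≤ 2 ^ v * (1 / 2 ^ (v + X)) * 1 :=
          mul_le_mul (mul_le_mul_of_nonneg_left (h1.trans (pw_le hD zero_le_one))
            (by positivity)) o2.le o1 (by positivity)
      _ = 1 / 2 ^ X := by
          rw [pow_add]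
          field_simp
  have e1 : F.md (cv v κ q) (frm σ a s t) ω 1 = 2 ^ (v + q) * (F.d ω (σ 1) -
      a ω * F.d ω (σ 0)) - F.mvl (cv v κ q) (frm σ a s t) ω 1 := by linarith
  have e0 : (F.mvl (cv v κ q) (frm σ a s t) ω 0 : ℝ) = 2 ^ q * F.d ω (σ 0) -
      F.md (cv v κ q) (frm σ a s t) ω 0 := by linarith
  have e : F.md (cv v κ q) (frm σ a s t) ω 1 - sl v D a al ω *
      F.md (cv v κ q) (frm σ a s t) ω 0 -
      (2 ^ (v + q) * nu - F.mvl (cv v κ q) (frm σ a s t) ω 1 +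
        2 ^ v * (al0 - a ω) * F.mvl (cv v κ q) (frm σ a s t) ω 0) =
      2 ^ (v + q) * (F.d ω (σ 1) - al0 * F.d ω (σ 0) - nu) +
        2 ^ v * (al0 - (Uni.dg D al ω : ℝ) / 2 ^ D) *
          F.md (cv v κ q) (frm σ a s t) ω 0 := by
    unfold sl
    rw [e1, e0, pow_add]
    ring
  rw [e]
  calc |2 ^ (v + q) * (F.d ω (σ 1) - al0 * F.d ω (σ 0) - nu) +
        2 ^ v * (al0 - (Uni.dg D al ω : ℝ) / 2 ^ D) *
          F.md (cv v κ q) (frm σ a s t) ω 0| * 2 ^ X ≤ (E / 2 ^ X + 1 / 2 ^ X) * 2 ^ X :=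
        mul_le_mul_of_nonneg_right ((abs_add_le _ _).trans (add_le_add h2 h3)) hX.le
    _ = E + 1 := by field_simp

/-- **The exact points see the velocities of the context**, with an absolute constant. -/
theorem str_of {F : Fam 3 J} {p : F.Ω → ℝ} {σ : Fin 3 → Fin 3} (hσ : Function.Injective σ)
    {w v κ q X D Hu : ℕ} (hw : w ≤ J) {a s t : F.Ω → ℝ}
    {al nu : (Fin 3 → ℤ) × (ℕ × F.ζ) → ℝ} {B : ℝ}
    (on1 : ∀ ω, 0 < p ω → |F.d ω (σ 1) - al (Fam.pt F ω) * F.d ω (σ 0) - nu (Fam.pt F ω)| ≤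
      B / 2 ^ Hu)
    (near : ∀ ω, 0 < p ω → |al (Fam.pt F ω) - a ω| ≤ 3 / 2 ^ v)
    (bal : ∀ ω, 0 < p ω → |al (Fam.pt F ω)| ≤ B) (hD : v + X ≤ D)
    (hu : (B + 4) * 2 ^ (v + q + X) ≤ 2 ^ Hu) (hJ : (B + 4) * 2 ^ (w + v + q + X) ≤ 2 ^ J) :
    Str F p 0 1 w (cv v κ q) (frm σ a s t) (sl v D a (fun ω => al (Fam.pt F ω))) (Fam.pt F) X
      4 := by
  refine ⟨fun ω => upt F w (cv v κ q) (frm σ a s t) ω 0,
    fun ω => upt F w (cv v κ q) (frm σ a s t) ω 1,
    fun ω => 2 ^ (v + q) * nu (Fam.pt F ω) - F.mvl (cv v κ q) (frm σ a s t) ω 1 +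
        2 ^ v * (al (Fam.pt F ω) - a ω) * F.mvl (cv v κ q) (frm σ a s t) ω 0,
    ?_, ?_⟩
  · intro ω ω' _ _ e
    have e1 : Fam.pt F ω = Fam.pt F ω' := (Prod.ext_iff.mp e).1
    have e2 : F.blb w (cv v κ q) (frm σ a s t) ω =
      F.blb w (cv v κ q) (frm σ a s t) ω' := (Prod.ext_iff.mp e).2
    obtain ⟨f1, f2, f3, f4, f5⟩ := Box.mlb_ext (F := F) (g := w) (M := frm σ a s t) e2
    have f6 : a ω = a ω' := (Box.tfr_eq hσ f2).1
    have f7 := upt_det e1 e2
    simp only [f7, f4, f6, e1]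
  · intro ω hω
    have n1 := near ω hω
    have n2 := bal ω hω
    have hB0 : 0 ≤ B := (abs_nonneg _).trans n2
    have n3 : |a ω| ≤ B + 3 := by
      have e : a ω = al (Fam.pt F ω) - (al (Fam.pt F ω) - a ω) := by ring
      have n4 : (3 : ℝ) / 2 ^ v ≤ 3 := div_le_self (by norm_num) (one_le_pow₀ (by norm_num))
      rw [e]
      refine (abs_sub _ _).trans ?_
      linarith
    have r0 : ∑ j, |frm σ a s t ω 0 j| ≤ B + 4 := by
      have e : ∀ j, frm σ a s t ω 0 j = if j = σ 0 then 1 else 0 := fun j => rfl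
      simp only [e]
      have e2 : ∀ j, |(if j = σ 0 then (1 : ℝ) else 0)| = if j = σ 0 then 1 else 0 := by
        intro j
        split_ifs <;> simp
      simp only [e2]
      rw [Finset.sum_ite_eq' Finset.univ (σ 0)]
      simp only [Finset.mem_univ, if_true]
      linarith
    have r1 : ∑ j, |frm σ a s t ω 1 j| ≤ B + 4 := by
      have e : ∀ j, frm σ a s t ω 1 j =
        (if j = σ 1 then 1 else 0) - a ω * (if j = σ 0 then 1 else 0) := fun j => rfl
      have e2 : ∀ j, |frm σ a s t ω 1 j| ≤ (if j = σ 1 then 1 else 0) +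
          |a ω| * (if j = σ 0 then 1 else 0) := by
        intro j
        rw [e]
        refine (abs_sub _ _).trans ?_
        rw [abs_mul]
        split_ifs <;> simp
      refine (Finset.sum_le_sum fun j _ => e2 j).trans ?_
      rw [Finset.sum_add_distrib, ← Finset.mul_sum, Finset.sum_ite_eq' Finset.univ (σ 1),
        Finset.sum_ite_eq' Finset.univ (σ 0)]
      simp only [Finset.mem_univ, if_true]
      linarith
    have c0 : (B + 4) * 2 ^ (cv v κ q 0 + w + X) ≤ 1 * (2 : ℝ) ^ J := by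
      rw [one_mul]
      refine (mul_le_mul_of_nonneg_left ?_ (by linarith)).trans hJ
      refine pow_le_pow_right₀ (by norm_num) ?_
      change q + w + X ≤ w + v + q + X
      omega
    have c1 : (B + 4) * 2 ^ (cv v κ q 1 + w + X) ≤ 1 * (2 : ℝ) ^ J := by
      rw [one_mul]
      refine (mul_le_mul_of_nonneg_left ?_ (by linarith)).trans hJ
      refine pow_le_pow_right₀ (by norm_num) ?_
      change v + q + w + X ≤ w + v + q + X
      omega
    have c2 : B * 2 ^ (v + q + X) ≤ 1 * (2 : ℝ) ^ Hu := by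
      rw [one_mul]
      refine le_trans (mul_le_mul_of_nonneg_right ?_ (by positivity)) hu
      linarith
    refine ⟨(upt_le hw c0 r0).trans (by norm_num), (upt_le hw c1 r1).trans (by norm_num), ?_⟩
    refine (vel_le (s := s) (t := t) (a := a) (κ := κ) (al := fun ω => al (Fam.pt F ω)) rfl hD
      c2 (on1 ω hω)).trans ?_
    norm_num

end Pool.S6U

namespace Pool.UST

open Finset Real
open Pool.Agent.H49.Ent Pool.Agent.H32.Dense Pool.STK Pool.KA Pool.KSAT Pool.K2S Pool.PB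
  Pool.S6U Pool.S6C

variable {J : ℕ} {F : Fam 3 J} {A : F.Ω → Prop} {σ : Fin 3 → Fin 3} {wl wa wb : ℕ}
    {vp : ℕ → ℕ} {kap Hu HN : ℕ} {al nu : (Fin 3 → ℤ) × (ℕ × F.ζ) → ℝ} {k b : F.Ω → ℝ}
    {a : ℕ → F.Ω → ℝ} {s t : F.Ω → ℝ} {B C : ℝ}

/-- **The exact points see the velocities of the natural contexts.** -/
theorem UFrP.str (h : UFrP F A σ wl wa wb vp kap Hu HN al nu k b a s t B C) {p : F.Ω → ℝ}
    (hpos : ∀ ω, 0 < p ω → A ω) {w q X D : ℕ} (h1 : wa ≤ w) (h2 : w ≤ wb) (hD : vp w + X ≤ D)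
    (hu : (B + 4) * 2 ^ (vp w + q + X) ≤ 2 ^ Hu)
    (hJ : (B + 4) * 2 ^ (w + vp w + q + X) ≤ 2 ^ J) :
    Str F p 0 1 w (cv (vp w) kap q) (frm σ (a w) s t)
      (sl (vp w) D (a w) (fun ω => al (Fam.pt F ω))) (Fam.pt F) X 4 :=
  str_of h.bij.injective (h2.trans h.wJ) (fun ω hω => h.on1 ω (hpos ω hω))
    (fun ω hω => h.near w h1 h2 ω (hpos ω hω)) (fun ω hω => h.bal ω (hpos ω hω)) hD hu hJ

end Pool.UST
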